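import Pool.Agent.Helper97.Nag.Goals

set_option autoImplicit false

namespace Pool.Agent.Helper76.Nag.SCL

open Pool.Agent.Helper97.Tate Pool.Agent.Helper97.Nag

theorem pow_mem (hV : Pool.Agent.Helper97.Tate.S_VAA) (P : Fin 3 → ℂ) (m : ℕ) (f : MvPolynomial (Fin 3) ℂ)
    (hf : f ∈ Van P m) (t : ℕ) : f ^ t ∈ Van P (t * m) := by
  obtain ⟨h1, -, -, h4⟩ := hV ℂ P
  induction t with
  | zero =>
    rw [zero_mul]
    exact h4 _
  | succ t ih =>
    rw [pow_succ, Nat.succ_mul]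
    exact h1 _ _ _ _ ih hf

theorem mem_fm (d : ℕ) (f : MvPolynomial (Fin 3) ℂ) : f ∈ Fm ℂ (d : ℤ) ↔ f.IsHomogeneous d := by
  unfold Fm
  rw [if_pos (by positivity), Int.toNat_natCast]
  exact MvPolynomial.mem_homogeneousSubmodule _ _

theorem t (hV : Pool.Agent.Helper97.Tate.S_VAA) : S_SCL := by
  intro k r hk hr hrk H d m hm hd
  set q := max d (k * m) with hq
  set n := k ^ 2 + r with hn
  have hq2 : q ^ 2 < n * m ^ 2 := by
    rcases max_choice d (k * m) with h | h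
    · rw [hq, h]; exact hd
    · rw [hq, h, mul_pow, hn, add_mul]
      have : 0 < r * m ^ 2 := by positivity
      omega
  have hdq : d ≤ q := le_max_left _ _
  have hkq : k * m ≤ q := le_max_right _ _
  set t := 2 * q * r + r ^ 2 + 1 with ht
  set c := t * q / r + 1 with hc
  set d' := r * c with hd'
  have h1 : t * q < d' := by
    rw [hd', hc]
    have := Nat.lt_mul_div_succ (t * q) (show 0 < r by omega)
    exact this
  have h2 : d' ≤ t * q + r := by
    rw [hd', hc, mul_add, mul_one]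
    have := Nat.mul_div_le (t * q) r
    omega
  have ht1 : 1 ≤ t := by rw [ht]; omega
  have h3 : d' ^ 2 < n * (t * m) ^ 2 := by
    have h4 : d' ^ 2 ≤ (t * q + r) ^ 2 := Nat.pow_le_pow_left h2 2
    have h5 : (t * q + r) ^ 2 < t ^ 2 * (q ^ 2 + 1) := by
      have h6 : 2 * (t * q) * r + r ^ 2 < t ^ 2 := by
        have : t ^ 2 = t * (2 * q * r) + t * r ^ 2 + t := by
          conv_lhs => rw [pow_two]
          conv_lhs => rw [show t * t = t * (2 * q * r + r ^ 2 + 1) by rw [← ht]]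
          ring
        rw [this]
        have h7 : r ^ 2 ≤ t * r ^ 2 := Nat.le_mul_of_pos_left _ ht1
        have h8 : 2 * (t * q) * r = t * (2 * q * r) := by ring
        omega
      calc (t * q + r) ^ 2 = t ^ 2 * q ^ 2 + (2 * (t * q) * r + r ^ 2) := by ring
        _ < t ^ 2 * q ^ 2 + t ^ 2 := by omega
        _ = t ^ 2 * (q ^ 2 + 1) := by ring
    have h7 : t ^ 2 * (q ^ 2 + 1) ≤ t ^ 2 * (n * m ^ 2) := Nat.mul_le_mul_left _ hq2
    calc d' ^ 2 ≤ (t * q + r) ^ 2 := h4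
      _ < t ^ 2 * (q ^ 2 + 1) := h5
      _ ≤ t ^ 2 * (n * m ^ 2) := h7
      _ = n * (t * m) ^ 2 := by ring
  have h4 : k * (t * m) < d' := by
    calc k * (t * m) = t * (k * m) := by ring
      _ ≤ t * q := Nat.mul_le_mul_left _ hkq
      _ < d' := h1
  have h5 : r ∣ k * (d' - k * (t * m)) := by
    rw [Nat.mul_sub]
    apply Nat.dvd_sub
    · exact Dvd.dvd.mul_left (Dvd.intro _ rfl) _
    · have : k * (k * (t * m)) = k ^ 2 * (t * m) := by ring
      rw [this]
      exact Dvd.dvd.mul_right hrk _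
  obtain ⟨G, hG, hG2⟩ := H d' (t * m) (Nat.mul_pos ht1 hm) h4 h3 h5
  refine ⟨G, hG, fun Q hQ => ?_⟩
  have h6 := hG2 Q hQ
  rw [eq_bot_iff] at h6 ⊢
  intro f hf
  rw [Submodule.mem_inf, mem_fm, Submodule.mem_iInf] at hf
  obtain ⟨hf1, hf2⟩ := hf
  have h7 : d ≤ d' ∧ t * d ≤ d' := by
    have : t * d ≤ t * q := Nat.mul_le_mul_left _ hdq
    have h8 : d ≤ t * d := Nat.le_mul_of_pos_left _ ht1
    omega
  have h8 : f ^ t * MvPolynomial.X 0 ^ (d' - t * d) ∈
      (Fm ℂ (d' : ℤ) ⊓ ⨅ i, Van (Q i) (t * m) : Submodule ℂ (MvPolynomial (Fin 3) ℂ)) := by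
    rw [Submodule.mem_inf, mem_fm, Submodule.mem_iInf]
    constructor
    · have h9 : (f ^ t).IsHomogeneous (d * t) := hf1.pow t
      have h10 : ((MvPolynomial.X 0 : MvPolynomial (Fin 3) ℂ) ^ (d' - t * d)).IsHomogeneous
          (1 * (d' - t * d)) := (MvPolynomial.isHomogeneous_X ℂ 0).pow _
      have h11 := h9.mul h10
      have h12 : d * t + 1 * (d' - t * d) = d' := by
        rw [one_mul, mul_comm d t]
        omega
      rwa [h12] at h11
    · intro i
      obtain ⟨g1, -, -, g4⟩ := hV ℂ (Q i)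
      have := g1 (t * m) 0 _ _ (pow_mem hV (Q i) m f (hf2 i) t)
        (g4 (MvPolynomial.X 0 ^ (d' - t * d)))
      rwa [add_zero] at this
  have h9 := h6 h8
  rw [Submodule.mem_bot] at h9 ⊢
  rcases mul_eq_zero.1 h9 with h10 | h10
  · exact eq_zero_of_pow_eq_zero h10
  · exact absurd (eq_zero_of_pow_eq_zero h10) (MvPolynomial.X_ne_zero 0)

end Pool.Agent.Helper76.Nag.SCL
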